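import Pool.Agent.Helper29.QP.Defs

/-!
# QP-T3: the zero-sum relation for letters (Fox derivatives)
-/

open MonoidAlgebra Module

universe u

namespace Pool.Agent.Helper79.QP

open Pool.Agent.Helper29.QP

variable {K : Type u} [Field K] {X : Type}

lemma el_mul (g h : FreeGroup X) : el K g * el K h = el K (g * h) := by
  change single g 1 * single h 1 = single (g * h) (1 : K)
  rw [single_mul_single, mul_one]

/-- the action of the group algebra as an algebra homomorphism -/
noncomputable def AH {U : Type u} [AddCommGroup U] [Module K U] (θ : FreeGroup X →* (U ≃ₗ[K] U)) :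
    GA K X →ₐ[K] (U →ₗ[K] U) :=
  MonoidAlgebra.lift K _ _ ((LinearEquiv.automorphismGroup.toLinearMapMonoidHom).comp θ)

lemma AH_apply {U : Type u} [AddCommGroup U] [Module K U] (θ : FreeGroup X →* (U ≃ₗ[K] U))
    (a : GA K X) (n : U) : AH θ a n = actA θ a n := by
  unfold AH actA
  rw [MonoidAlgebra.lift_apply, Finsupp.sum, Finsupp.sum, LinearMap.sum_apply]
  rfl

lemma AH_el {U : Type u} [AddCommGroup U] [Module K U] (θ : FreeGroup X →* (U ≃ₗ[K] U))
    (g : FreeGroup X) (n : U) : AH θ (el K g) n = θ g n := by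
  unfold AH
  rw [MonoidAlgebra.lift_single, one_smul]
  rfl

section fox

variable {U : Type u} [AddCommGroup U] [Module K U]

/-- the automorphism attached to a generator -/
noncomputable def foxE (θ : FreeGroup X →* (U ≃ₗ[K] U)) (φ : X → U →ₗ[K] K) (y : X) :
    (U × GA K X) ≃ₗ[K] (U × GA K X) where
  toFun p := (θ (FreeGroup.of y) p.1, φ y (θ (FreeGroup.of y) p.1) • (1 : GA K X) +
    el K (FreeGroup.of y) * p.2)
  map_add' p q := by
    simp only [Prod.fst_add, Prod.snd_add, map_add, add_smul, mul_add, Prod.mk_add_mk]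
    congr 1
    abel
  map_smul' c p := by
    simp only [Prod.smul_fst, Prod.smul_snd, map_smul, smul_eq_mul, RingHom.id_apply, Prod.smul_mk,
      smul_add, mul_smul_comm, smul_smul]
  invFun p := ((θ (FreeGroup.of y)).symm p.1,
    el K (FreeGroup.of y)⁻¹ * (p.2 - φ y p.1 • (1 : GA K X)))
  left_inv p := by
    apply Prod.ext
    · simp
    · simp only [add_sub_cancel_left]
      rw [← mul_assoc, el_mul, inv_mul_cancel]
      exact one_mul _
  right_inv p := by
    apply Prod.ext
    · simp
    · simp only [LinearEquiv.apply_symm_apply]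
      rw [← mul_assoc, el_mul, mul_inv_cancel]
      change _ + (1 : GA K X) * _ = _
      rw [one_mul]
      abel

/-- the representation on `U × GA` -/
noncomputable def foxT (θ : FreeGroup X →* (U ≃ₗ[K] U)) (φ : X → U →ₗ[K] K) :
    FreeGroup X →* ((U × GA K X) ≃ₗ[K] (U × GA K X)) :=
  FreeGroup.lift (foxE θ φ)

variable (θ : FreeGroup X →* (U ≃ₗ[K] U)) (φ : X → U →ₗ[K] K)

lemma foxT_of (y : X) (p : U × GA K X) : foxT θ φ (FreeGroup.of y) p =
    (θ (FreeGroup.of y) p.1, φ y (θ (FreeGroup.of y) p.1) • (1 : GA K X) +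
    el K (FreeGroup.of y) * p.2) := by
  unfold foxT
  rw [FreeGroup.lift_apply_of]
  rfl

lemma foxT_inv (y : X) (p : U × GA K X) : foxT θ φ (FreeGroup.of y)⁻¹ p =
    (θ (FreeGroup.of y)⁻¹ p.1, el K (FreeGroup.of y)⁻¹ * (p.2 - φ y p.1 • (1 : GA K X))) := by
  unfold foxT
  rw [map_inv, FreeGroup.lift_apply_of, map_inv]
  rfl

lemma foxT_fst (g : FreeGroup X) : ∀ p : U × GA K X, (foxT θ φ g p).1 = θ g p.1 := by
  induction g using FreeGroup.induction_on with
  | C1 => intro p; rw [map_one, map_one]; rfl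
  | of y => intro p; rw [foxT_of]
  | inv_of y _ => intro p; rw [foxT_inv]
  | mul g h hg hh =>
    intro p
    rw [map_mul, map_mul, LinearEquiv.mul_apply, LinearEquiv.mul_apply, hg, hh]

lemma foxT_zero (g : FreeGroup X) : ∀ v : GA K X, foxT θ φ g (0, v) = (0, el K g * v) := by
  induction g using FreeGroup.induction_on with
  | C1 => intro v; rw [map_one]; change (0, v) = (0, (1 : GA K X) * v); rw [one_mul]
  | of y => intro v; rw [foxT_of]; simp only [map_zero, zero_smul, zero_add]
  | inv_of y _ => intro v; rw [foxT_inv]; simp only [map_zero, zero_smul, sub_zero]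
  | mul g h hg hh =>
    intro v
    rw [map_mul, LinearEquiv.mul_apply, hh, hg, ← mul_assoc, el_mul]

/-- the Fox derivative of a group element -/
noncomputable def fox (g : FreeGroup X) (n : U) : GA K X := (foxT θ φ g (n, 0)).2

lemma foxT_eq (g : FreeGroup X) (n : U) (v : GA K X) :
    foxT θ φ g (n, v) = (θ g n, fox θ φ g n + el K g * v) := by
  have h1 : ((n, v) : U × GA K X) = (n, 0) + (0, v) := by simp
  rw [h1, map_add, foxT_zero]
  apply Prod.ext
  · rw [Prod.fst_add, foxT_fst]; simp
  · rfl

lemma fox_mul (g h : FreeGroup X) (n : U) :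
    fox θ φ (g * h) n = fox θ φ g (θ h n) + el K g * fox θ φ h n := by
  have h1 : foxT θ φ (g * h) (n, 0) = foxT θ φ g (foxT θ φ h (n, 0)) := by
    rw [map_mul]; rfl
  have h2 : foxT θ φ h (n, 0) = (θ h n, fox θ φ h n) := by
    rw [foxT_eq θ φ h n 0, mul_zero, add_zero]
  rw [h2, foxT_eq θ φ g] at h1
  exact congrArg Prod.snd h1

lemma fox_of (y : X) (n : U) : fox θ φ (FreeGroup.of y) n = φ y (θ (FreeGroup.of y) n) • (1 : GA K X) := by
  unfold fox
  rw [foxT_of]
  simp

lemma fox_inv (y : X) (n : U) : fox θ φ (FreeGroup.of y)⁻¹ n =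
    (-φ y n) • el K (FreeGroup.of y)⁻¹ := by
  unfold fox
  rw [foxT_inv]
  simp only [zero_sub, mul_neg, mul_smul_comm, mul_one, neg_smul]

lemma fox_one (n : U) : fox θ φ 1 n = 0 := by
  unfold fox
  rw [map_one]; rfl

/-- the Fox derivative of a word -/
lemma fox_mk (W : List (X × Bool)) (n : U) : fox θ φ (FreeGroup.mk W) n =
    ∑ j : Fin W.length, (sgn K (W.get j).2 * φ (W.get j).1 (θ (tl W j)⁻¹ (θ (FreeGroup.mk W) n))) •
      el K (tl W j) := by
  induction W with
  | nil => exact fox_one θ φ n
  | cons s W ih =>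
    have hcons : ∀ L : List (X × Bool), FreeGroup.mk (s :: L) = FreeGroup.mk [s] * FreeGroup.mk L :=
      fun L => by rw [FreeGroup.mul_mk]; rfl
    rw [hcons, fox_mul, ih]
    change _ = ∑ j : Fin (W.length + 1), _
    rw [Fin.sum_univ_succ, Finset.mul_sum]
    congr 1
    · obtain ⟨y, b⟩ := s
      cases b with
      | true =>
        have e1 : FreeGroup.mk [(y, true)] = FreeGroup.of y := rfl
        have e2 : tl ((y, true) :: W) 0 = 1 := rfl
        have e3 : ((y, true) :: W).get 0 = (y, true) := rfl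
        rw [e1, fox_of, e3]
        change _ = (sgn K true * φ y (θ (tl ((y, true) :: W) 0)⁻¹ _)) • el K (tl ((y, true) :: W) 0)
        rw [e2, inv_one, map_one, map_mul, LinearEquiv.mul_apply]
        unfold sgn
        simp only [if_true, one_mul]
        rfl
      | false =>
        have e1 : FreeGroup.mk [(y, false)] = (FreeGroup.of y)⁻¹ := rfl
        have e2 : tl ((y, false) :: W) 0 = (FreeGroup.of y)⁻¹ := rfl
        have e3 : ((y, false) :: W).get 0 = (y, false) := rfl
        rw [e1, fox_inv, e3]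
        change _ = (sgn K false * φ y (θ (tl ((y, false) :: W) 0)⁻¹ _)) • el K (tl ((y, false) :: W) 0)
        rw [e2, inv_inv, ← LinearEquiv.mul_apply, ← map_mul, mul_inv_cancel_left]
        unfold sgn
        simp
    · apply Finset.sum_congr rfl
      intro j _
      have e1 : (s :: W).get j.succ = W.get j := rfl
      have e2 : tl (s :: W) j.succ = FreeGroup.mk [s] * tl W j := by
        unfold tl
        rw [e1]
        have t1 : (s :: W).take (j.succ : ℕ) = s :: W.take j := by
          rw [Fin.val_succ, List.take_succ_cons]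
        have t2 : (s :: W).take ((j.succ : ℕ) + 1) = s :: W.take (j + 1) := by
          rw [Fin.val_succ, List.take_succ_cons]
        rw [t1, t2, hcons, hcons]
        split_ifs <;> rfl
      rw [e1, e2, mul_smul_comm, el_mul, mul_inv_rev]
      congr 3
      rw [map_mul (f := θ) (tl W j)⁻¹, map_mul (f := θ) (FreeGroup.mk [s]) (FreeGroup.mk W),
        LinearEquiv.mul_apply, LinearEquiv.mul_apply, ← LinearEquiv.mul_apply (θ (FreeGroup.mk [s])⁻¹),
        ← map_mul, inv_mul_cancel, map_one]
      rfl

end fox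

theorem letter_zero_sum {U : Type u} [AddCommGroup U] [Module K U]
    (I : RIdeal K X) {m : ℕ} (a f : Fin m → GA K X) (ha : ∀ i, a i ∈ I)
    (W : List (X × Bool)) (hw : ∑ i, a i * f i = el K (FreeGroup.mk W) - 1)
    (θ : FreeGroup X →* (U ≃ₗ[K] U)) (n : U) (hn : ∀ i, actA θ (f i) n = 0) :
    θ (FreeGroup.mk W) n = n ∧
    ∀ [DecidableEq X] (φ : U →ₗ[K] K) (x : X),
      ∑ j : Fin W.length, (if (W.get j).1 = x then
        (sgn K (W.get j).2 * φ (θ (tl W j)⁻¹ n)) • el K (tl W j) else 0) ∈ I := by
  have h0 : θ (FreeGroup.mk W) n = n := by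
    have h1 := congrArg (fun z => AH θ z n) hw
    simp only [map_sum, map_mul, map_sub, map_one, LinearMap.sum_apply, LinearMap.sub_apply] at h1
    rw [AH_el] at h1
    have h2 : ∑ i, (AH θ (a i) * AH θ (f i)) n = 0 := by
      apply Finset.sum_eq_zero
      intro i _
      rw [Module.End.mul_apply, AH_apply θ (f i) n, hn i, map_zero]
    rw [h2] at h1
    exact (sub_eq_zero.mp h1.symm)
  refine ⟨h0, ?_⟩
  intro _ φ x
  set φ' : X → U →ₗ[K] K := fun y => if y = x then φ else 0 with hφ'
  have hsum : ∑ j : Fin W.length, (if (W.get j).1 = x then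
        (sgn K (W.get j).2 * φ (θ (tl W j)⁻¹ n)) • el K (tl W j) else 0) =
      fox θ φ' (FreeGroup.mk W) n := by
    rw [fox_mk, h0]
    apply Finset.sum_congr rfl
    intro j _
    rw [hφ']
    by_cases hj : (W.get j).1 = x
    · simp only [hj, if_true]
    · simp only [hj, if_false, LinearMap.zero_apply, mul_zero, zero_smul]
  rw [hsum]
  -- apply the big representation
  have hfst : ∀ b : GA K X, ∀ p : U × GA K X, (AH (foxT θ φ') b p).1 = AH θ b p.1 := by
    intro b p
    induction b using MonoidAlgebra.induction_on with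
    | of g =>
      change (AH (foxT θ φ') (el K g) p).1 = AH θ (el K g) p.1
      rw [AH_el, AH_el, foxT_fst]
    | add b c hb hc =>
      rw [map_add, map_add, LinearMap.add_apply, LinearMap.add_apply, Prod.fst_add, hb, hc]
    | smul r b hb =>
      rw [map_smul, map_smul, LinearMap.smul_apply, LinearMap.smul_apply, Prod.smul_fst, hb]
  have hzero : ∀ b v : GA K X, AH (foxT θ φ') b (0, v) = (0, b * v) := by
    intro b v
    induction b using MonoidAlgebra.induction_on with
    | of g =>
      change AH (foxT θ φ') (el K g) (0, v) = (0, el K g * v)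
      rw [AH_el, foxT_zero]
    | add b c hb hc =>
      rw [map_add, LinearMap.add_apply, hb, hc, add_mul]
      simp
    | smul r b hb =>
      rw [map_smul, LinearMap.smul_apply, hb, smul_mul_assoc]
      simp
  have h1 := congrArg (fun z => AH (foxT θ φ') z (n, 0)) hw
  simp only [map_sum, map_mul, map_sub, map_one, LinearMap.sum_apply, LinearMap.sub_apply] at h1
  rw [AH_el] at h1
  have h2 : ∀ i, (AH (foxT θ φ') (a i) * AH (foxT θ φ') (f i)) (n, 0) =
      (0, a i * (AH (foxT θ φ') (f i) (n, 0)).2) := by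
    intro i
    rw [Module.End.mul_apply]
    have h3 : AH (foxT θ φ') (f i) (n, 0) = (0, (AH (foxT θ φ') (f i) (n, 0)).2) := by
      apply Prod.ext
      · rw [hfst]
        change AH θ (f i) n = 0
        rw [AH_apply, hn]
      · rfl
    conv_lhs => rw [h3]
    rw [hzero]
  have h3 := congrArg Prod.snd h1
  rw [Finset.sum_congr rfl (fun i _ => h2 i), Prod.snd_sum] at h3
  have h4 : fox θ φ' (FreeGroup.mk W) n = ∑ i, a i * (AH (foxT θ φ') (f i) (n, 0)).2 := by
    simp only at h3
    rw [h3]
    unfold fox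
    rw [Prod.snd_sub]
    simp
  rw [h4]
  apply Submodule.sum_mem
  intro i _
  have h5 := I.smul_mem (MulOpposite.op ((AH (foxT θ φ') (f i) (n, 0)).2)) (ha i)
  exact h5

end Pool.Agent.Helper79.QP
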