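import Pool.Agent.Lead.RedInf
import Pool.Agent.Helper29.QP.Defs

/-!
# QP-E: the extension lemma
-/

open MonoidAlgebra Module

universe u

namespace Pool.Agent.Helper79.QP

open Pool.Agent.Helper29.QP

variable {K : Type u} [Field K] {X : Type}

/-- two linear maps with the same kernel to a finite dimensional space differ by an automorphism -/
lemma exists_aut {S U : Type u} [AddCommGroup S] [Module K S] [AddCommGroup U] [Module K U]
    [FiniteDimensional K U] (f1 f2 : S →ₗ[K] U) (h : LinearMap.ker f1 = LinearMap.ker f2) :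
    ∃ e : U ≃ₗ[K] U, ∀ s, e (f2 s) = f1 s := by
  obtain ⟨C1, h1⟩ := Submodule.exists_isCompl (LinearMap.range f1)
  obtain ⟨C2, h2⟩ := Submodule.exists_isCompl (LinearMap.range f2)
  let e0 : LinearMap.range f2 ≃ₗ[K] LinearMap.range f1 :=
    f2.quotKerEquivRange.symm ≪≫ₗ (Submodule.quotEquivOfEq _ _ h.symm) ≪≫ₗ f1.quotKerEquivRange
  have hdim : finrank K C2 = finrank K C1 := by
    have a1 := Submodule.finrank_add_eq_of_isCompl h1
    have a2 := Submodule.finrank_add_eq_of_isCompl h2
    have a3 := e0.finrank_eq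
    omega
  let ec : C2 ≃ₗ[K] C1 := LinearEquiv.ofFinrankEq _ _ hdim
  refine ⟨(Submodule.prodEquivOfIsCompl _ _ h2).symm ≪≫ₗ (LinearEquiv.prodCongr e0 ec) ≪≫ₗ
    (Submodule.prodEquivOfIsCompl _ _ h1), ?_⟩
  intro s
  have hs : f2 s = ((⟨f2 s, LinearMap.mem_range_self f2 s⟩ : LinearMap.range f2) : U) := rfl
  rw [LinearEquiv.trans_apply, LinearEquiv.trans_apply, hs,
    Submodule.prodEquivOfIsCompl_symm_apply_left, LinearEquiv.prodCongr_apply]
  simp only [map_zero]
  rw [Submodule.coe_prodEquivOfIsCompl']
  simp only [ZeroMemClass.coe_zero, add_zero]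
  have h3 : f2.quotKerEquivRange (Submodule.Quotient.mk s) =
      ⟨f2 s, LinearMap.mem_range_self f2 s⟩ := by
    apply Subtype.ext
    exact LinearMap.quotKerEquivRange_apply_mk f2 s
  change ((f1.quotKerEquivRange ((Submodule.quotEquivOfEq _ _ h.symm)
    (f2.quotKerEquivRange.symm ⟨f2 s, LinearMap.mem_range_self f2 s⟩)) : LinearMap.range f1) : U) = f1 s
  rw [← h3, LinearEquiv.symm_apply_apply]
  rw [Submodule.quotEquivOfEq_mk]
  exact LinearMap.quotKerEquivRange_apply_mk f1 s

/-- elements supported in `T` -/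
def suppSub (T : Set (FreeGroup X)) : Submodule K (GA K X) where
  carrier := {ρ | SuppIn T ρ}
  zero_mem' := fun g hg => absurd rfl hg
  add_mem' := by
    intro a b ha hb g hg
    rw [coeff_add, Finsupp.add_apply] at hg
    by_contra hT
    have e1 : a.coeff g = 0 := by by_contra h; exact hT (ha g h)
    have e2 : b.coeff g = 0 := by by_contra h; exact hT (hb g h)
    exact hg (by rw [e1, e2, add_zero])
  smul_mem' := by
    intro k a ha g hg
    rw [coeff_smul, Finsupp.smul_apply] at hg
    exact ha g (fun h => hg (by rw [h, smul_zero]))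

theorem lemE {U : Type u} [AddCommGroup U] [Module K U] [FiniteDimensional K U]
    (T : Set (FreeGroup X)) (hT : PC T) (c : GA K X →ₗ[K] U)
    (hc : ∀ (x : X) (ρ : GA K X), SuppIn T ρ → SuppIn T (ρ * el K (FreeGroup.of x)) →
      (c ρ = 0 ↔ c (ρ * el K (FreeGroup.of x)) = 0)) :
    ∃ θ : FreeGroup X →* (U ≃ₗ[K] U),
      (∀ (x : X) (ρ : GA K X), SuppIn T ρ → SuppIn T (ρ * el K (FreeGroup.of x)) →
        θ (FreeGroup.of x) (c (ρ * el K (FreeGroup.of x))) = c ρ) ∧
      ∀ τ ∈ T, θ τ (c (el K τ)) = c 1 := by
  classical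
  have hex : ∀ x : X, ∃ e : U ≃ₗ[K] U, ∀ ρ : GA K X, SuppIn T ρ → SuppIn T (ρ * el K (FreeGroup.of x)) →
      e (c (ρ * el K (FreeGroup.of x))) = c ρ := by
    intro x
    let R : GA K X →ₗ[K] GA K X := LinearMap.mulRight K (el K (FreeGroup.of x))
    let S : Submodule K (GA K X) := suppSub T ⊓ (suppSub T).comap R
    let f1 : S →ₗ[K] U := c ∘ₗ S.subtype
    let f2 : S →ₗ[K] U := c ∘ₗ R ∘ₗ S.subtype
    have hk : LinearMap.ker f1 = LinearMap.ker f2 := by
      ext ⟨ρ, h1, h2⟩
      rw [LinearMap.mem_ker, LinearMap.mem_ker]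
      exact hc x ρ h1 h2
    obtain ⟨e, he⟩ := exists_aut f1 f2 hk
    exact ⟨e, fun ρ h1 h2 => he ⟨ρ, h1, h2⟩⟩
  choose e he using hex
  refine ⟨FreeGroup.lift e, ?_, ?_⟩
  · intro x ρ h1 h2
    rw [FreeGroup.lift_apply_of]
    exact he x ρ h1 h2
  · have key : ∀ L : List (X × Bool), FreeGroup.IsReduced L → FreeGroup.mk L ∈ T →
        (FreeGroup.lift e) (FreeGroup.mk L) (c (el K (FreeGroup.mk L))) = c 1 := by
      intro L
      induction L using List.reverseRecOn with
      | nil =>
        intro _ _
        have h1 : (FreeGroup.mk ([] : List (X × Bool))) = 1 := rfl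
        rw [h1, map_one]
        rfl
      | append_singleton L s ih =>
        intro hred hmem
        have hred' : FreeGroup.IsReduced L := Pool.Agent.Lead.isReduced_of_isInf hred ⟨[], [s], by simp⟩
        have hmem' : FreeGroup.mk L ∈ T := hT _ hred hmem L (List.prefix_append L [s])
        have ih' := ih hred' hmem'
        have hsupp : ∀ g ∈ T, SuppIn T (el K g) := by
          intro g hg g' hg'
          have : g = g' := by
            by_contra hne
            apply hg'
            change (Finsupp.single g (1 : K)) g' = 0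
            rw [Finsupp.single_apply, if_neg hne]
          exact this ▸ hg
        have hmul : ∀ g h : FreeGroup X, el K g * el K h = el K (g * h) := fun g h => by
          change single g 1 * single h 1 = single (g * h) (1 : K)
          rw [single_mul_single, mul_one]
        obtain ⟨x, b⟩ := s
        cases b with
        | true =>
          have h1 : FreeGroup.mk (L ++ [(x, true)]) = FreeGroup.mk L * FreeGroup.of x := by
            rw [← FreeGroup.mul_mk]; rfl
          have h2 := he x (el K (FreeGroup.mk L)) (hsupp _ hmem') (by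
            rw [hmul, ← h1]; exact hsupp _ hmem)
          rw [hmul, ← h1] at h2
          have h3 : (FreeGroup.lift e) (FreeGroup.mk (L ++ [(x, true)])) =
              (FreeGroup.lift e) (FreeGroup.mk L) * e x := by
            rw [h1, map_mul, FreeGroup.lift_apply_of]
          rw [h3, LinearEquiv.mul_apply, h2, ih']
        | false =>
          have h1 : FreeGroup.mk (L ++ [(x, false)]) = FreeGroup.mk L * (FreeGroup.of x)⁻¹ := by
            rw [← FreeGroup.mul_mk]; rfl
          have h1' : FreeGroup.mk (L ++ [(x, false)]) * FreeGroup.of x = FreeGroup.mk L := by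
            rw [h1, inv_mul_cancel_right]
          have h2 := he x (el K (FreeGroup.mk (L ++ [(x, false)]))) (hsupp _ hmem) (by
            rw [hmul, h1']; exact hsupp _ hmem')
          rw [hmul, h1'] at h2
          have h3 : (FreeGroup.lift e) (FreeGroup.mk L) =
              (FreeGroup.lift e) (FreeGroup.mk (L ++ [(x, false)])) * e x := by
            rw [← FreeGroup.lift_apply_of (f := e) (x := x), ← map_mul, h1']
          rw [h3, LinearEquiv.mul_apply, h2] at ih'
          exact ih'
    intro τ hτ
    have h1 : FreeGroup.mk τ.toWord = τ := FreeGroup.mk_toWord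
    have h2 := key τ.toWord FreeGroup.isReduced_toWord (by rw [h1]; exact hτ)
    rw [h1] at h2
    exact h2

end Pool.Agent.Helper79.QP
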